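import Pool.Agent.SPV.StmtsA

set_option autoImplicit false

namespace Pool.Agent.SPV.H88

open Finset Pool.Agent.SPV

theorem sum_half (k : ℕ) : ∑ m ∈ Icc 1 k, (1 / 2 : ℝ) ^ m ≤ 1 := by
  have h : ∑ m ∈ Icc 1 k, (1 / 2 : ℝ) ^ m = 1 - (1 / 2) ^ k := by
    induction k with
    | zero => simp
    | succ n ih =>
      rw [Finset.sum_Icc_succ_top (by omega), ih, pow_succ]
      ring
  rw [h]
  have : (0 : ℝ) ≤ (1 / 2) ^ k := by positivity
  linarith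

theorem term_bound {ε τ κ : ℝ} {q : ℕ} (hκ : 0 < κ) (hδ : τ - 2 * (1 - ε) = 2 * κ) (hq : 2 ≤ q)
    (hN : 60 ≤ (q : ℝ) ^ κ) {m : ℕ} (hm : q ≤ 4 ^ m) {u : ℝ} (hu0 : 0 ≤ u)
    (hu : u ≤ (q : ℝ) ^ (-τ)) :
    (30 * (q : ℝ) ^ (2 * (1 - ε))) ^ m * u ^ m ≤
      Real.exp (-(κ / 2 * (Real.log q) ^ 2)) * (1 / 2) ^ m := by
  have hq0 : (0 : ℝ) < q := by
    have : 0 < q := by omega
    exact_mod_cast this
  have hL0 : 0 ≤ Real.log q := Real.log_natCast_nonneg q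
  rw [← mul_pow]
  have h1 : 30 * (q : ℝ) ^ (2 * (1 - ε)) * u ≤ (q : ℝ) ^ (-κ) * (1 / 2) := by
    have h2 : 30 * (q : ℝ) ^ (2 * (1 - ε)) * u ≤ 30 * (q : ℝ) ^ (2 * (1 - ε)) * (q : ℝ) ^ (-τ) :=
      mul_le_mul_of_nonneg_left hu (by positivity)
    have h3 : (q : ℝ) ^ (2 * (1 - ε)) * (q : ℝ) ^ (-τ) = (q : ℝ) ^ (-κ) * (q : ℝ) ^ (-κ) := by
      rw [← Real.rpow_add hq0, ← Real.rpow_add hq0]
      congr 1
      linarith
    have h4 : (q : ℝ) ^ (-κ) * 60 ≤ 1 := by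
      have h5 : (q : ℝ) ^ (-κ) * (q : ℝ) ^ κ = 1 := by
        rw [← Real.rpow_add hq0, neg_add_cancel, Real.rpow_zero]
      calc (q : ℝ) ^ (-κ) * 60 ≤ (q : ℝ) ^ (-κ) * (q : ℝ) ^ κ :=
            mul_le_mul_of_nonneg_left hN (by positivity)
        _ = 1 := h5
    have h6 : (q : ℝ) ^ (-κ) * ((q : ℝ) ^ (-κ) * 60) ≤ (q : ℝ) ^ (-κ) * 1 :=
      mul_le_mul_of_nonneg_left h4 (by positivity)
    calc 30 * (q : ℝ) ^ (2 * (1 - ε)) * u ≤
        30 * ((q : ℝ) ^ (2 * (1 - ε)) * (q : ℝ) ^ (-τ)) := by rw [← mul_assoc]; exact h2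
      _ = 30 * ((q : ℝ) ^ (-κ) * (q : ℝ) ^ (-κ)) := by rw [h3]
      _ ≤ (q : ℝ) ^ (-κ) * (1 / 2) := by linarith
  have h7 : (30 * (q : ℝ) ^ (2 * (1 - ε)) * u) ^ m ≤ ((q : ℝ) ^ (-κ) * (1 / 2)) ^ m :=
    pow_le_pow_left₀ (by positivity) h1 m
  refine h7.trans ?_
  rw [mul_pow]
  refine mul_le_mul_of_nonneg_right ?_ (by positivity)
  have h8 : ((q : ℝ) ^ (-κ)) ^ m = Real.exp (-(κ * m * Real.log q)) := by
    rw [Real.rpow_def_of_pos hq0, ← Real.exp_nat_mul]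
    congr 1
    ring
  rw [h8]
  apply Real.exp_le_exp.mpr
  have h9 : Real.log q ≤ 2 * m := by
    have h10 : (q : ℝ) ≤ (4 : ℝ) ^ m := by exact_mod_cast hm
    have h11 : Real.log q ≤ Real.log ((4 : ℝ) ^ m) := Real.log_le_log hq0 h10
    rw [Real.log_pow] at h11
    have h12 : Real.log 4 ≤ 2 := by
      have h13 : Real.log 4 = 2 * Real.log 2 := by
        rw [show (4 : ℝ) = 2 ^ 2 by norm_num, Real.log_pow]
        norm_num
      have h14 : Real.log 2 ≤ 2 - 1 := Real.log_le_sub_one_of_pos (by norm_num)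
      linarith
    have h15 : (m : ℝ) * Real.log 4 ≤ m * 2 :=
      mul_le_mul_of_nonneg_left h12 (Nat.cast_nonneg m)
    linarith
  have h16 : κ * Real.log q * Real.log q ≤ κ * Real.log q * (2 * m) :=
    mul_le_mul_of_nonneg_left h9 (by positivity)
  nlinarith [h16]

/-- AEF -/
theorem aef (hS : SmkStmt) (hR : NreStmt) (hB : NbdStmt) (hU : UnbStmt) : AefStmt := by
  classical
  intro ε τ hε hε1 hτ
  set κ : ℝ := (τ - 2 * (1 - ε)) / 2 with hκdef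
  have hκ : 0 < κ := by rw [hκdef]; linarith
  refine ⟨κ / 2, by positivity, ⌈(60 : ℝ) ^ (1 / κ)⌉₊, ?_⟩
  intro p q hp hq hN hqp S hSq k hk hkS
  have : Fact p.Prime := ⟨hp⟩
  have : NeZero q := ⟨hq.ne_zero⟩
  have hq0 : (0 : ℝ) < q := by exact_mod_cast hq.pos
  have h60 : 60 ≤ (q : ℝ) ^ κ := by
    have h1 : (60 : ℝ) ^ (1 / κ) ≤ q := (Nat.le_ceil _).trans (by exact_mod_cast hN)
    have h2 : ((60 : ℝ) ^ (1 / κ)) ^ κ ≤ (q : ℝ) ^ κ :=
      Real.rpow_le_rpow (by positivity) h1 hκ.le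
    rwa [← Real.rpow_mul (by norm_num), one_div_mul_cancel hκ.ne', Real.rpow_one] at h2
  set w : ℕ → ℝ := fun m => if q ≤ 4 ^ m then (30 * (q : ℝ) ^ (2 * (1 - ε))) ^ m else 0 with hw
  have hfin : ∀ Q : Finset ℕ → Prop, {B : Finset ℕ | B ⊆ S ∧ Q B}.Finite := by
    intro Q
    apply (S.powerset.finite_toSet).subset
    rintro B ⟨h1, _⟩
    simpa using h1
  have hfin' : ∀ Q : Finset ℕ → Prop, {B : Finset ℕ | B ⊆ range q ∧ Q B}.Finite := by
    intro Q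
    apply ((range q).powerset.finite_toSet).subset
    rintro B ⟨h1, _⟩
    exact mem_coe.mpr (mem_powerset.mpr h1)
  have hcond : ∀ m, 1 ≤ m → m ≤ k →
      ({B : Finset ℕ | B ⊆ S ∧ B.card = m ∧ (Bad p q ε B ∧ q ≤ 4 ^ B.card)}.ncard : ℝ) ≤ w m := by
    intro m _ _
    by_cases h4 : q ≤ 4 ^ m
    · have hwm : w m = (30 * (q : ℝ) ^ (2 * (1 - ε))) ^ m := by rw [hw]; simp only [h4, if_true]
      rw [hwm]
      refine le_trans ?_ (hB p q hp hq hqp ε (by linarith) hε1.le m)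
      have hle : {B : Finset ℕ | B ⊆ S ∧ B.card = m ∧ (Bad p q ε B ∧ q ≤ 4 ^ B.card)}.ncard ≤
          {B : Finset ℕ | B ⊆ range q ∧ B.card = m ∧ Bad p q ε B}.ncard := by
        apply Set.ncard_le_ncard _ (hfin' _)
        rintro B ⟨h1, h2, h3, _⟩
        exact ⟨h1.trans hSq, h2, h3⟩
      exact_mod_cast hle
    · have hwm : w m = 0 := by rw [hw]; simp only [h4, if_false]
      rw [hwm]
      have hemp : {B : Finset ℕ | B ⊆ S ∧ B.card = m ∧ (Bad p q ε B ∧ q ≤ 4 ^ B.card)} = ∅ := by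
        rw [Set.eq_empty_iff_forall_notMem]
        rintro B ⟨_, h2, _, h3⟩
        rw [h2] at h3
        exact h4 h3
      rw [hemp, Set.ncard_empty]
      simp
  have hmain := hU S k (fun B => Bad p q ε B ∧ q ≤ 4 ^ B.card) w hcond
  obtain ⟨z, hz, hnr⟩ := hR p q hq hqp
  have hsub : {A : Finset ℕ | A ⊆ S ∧ A.card = k ∧
      ∃ β : ℕ → ZMod p, (∃ i ∈ A, β i ≠ 0) ∧ ε * q < nr p q A β} ⊆
      {A : Finset ℕ | A ⊆ S ∧ A.card = k ∧ ∃ B, B ⊆ A ∧ B.Nonempty ∧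
        (Bad p q ε B ∧ q ≤ 4 ^ B.card)} := by
    rintro A ⟨hAS, hAk, β, ⟨i, hiA, hi⟩, hβ⟩
    refine ⟨hAS, hAk, A.filter (fun a => β a ≠ 0), filter_subset _ _,
      ⟨i, mem_filter.mpr ⟨hiA, hi⟩⟩, ?_⟩
    have hnrB : nr p q (A.filter (fun a => β a ≠ 0)) β = nr p q A β := by
      unfold nr
      congr 1
      ext z
      have hs : ∑ i ∈ A.filter (fun a => β a ≠ 0), β i * z ^ i = ∑ i ∈ A, β i * z ^ i := by
        apply sum_filter_of_ne
        intro x _ hx hx0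
        exact hx (by rw [hx0, zero_mul])
      simp only [Set.mem_ofPred_eq, hs]
    refine ⟨⟨β, fun a ha => (mem_filter.mp ha).2, by rw [hnrB]; exact hβ⟩, ?_⟩
    by_contra hlt
    have hlt' := not_le.mp hlt
    have h1 := hS (ZMod p) z q hq hz (A.filter (fun a => β a ≠ 0)) β
      ((filter_subset _ _).trans (hAS.trans hSq)) ⟨i, mem_filter.mpr ⟨hiA, hi⟩⟩
      (fun a ha => (mem_filter.mp ha).2) hlt'
    have h2 := hnr (A.filter (fun a => β a ≠ 0)) β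
    have h3 := card_filter_add_card_filter_not (s := range q)
      (fun t => es z (A.filter (fun a => β a ≠ 0)) β t = 0)
    rw [card_range, h2, hnrB] at h3
    have h4 : 2 * nr p q A β ≤ q := by
      simp only [ne_eq] at h1 h3
      omega
    have h5 : (2 : ℝ) * nr p q A β ≤ q := by exact_mod_cast h4
    have h6 : (1 / 2 : ℝ) * q < ε * q := mul_lt_mul_of_pos_right hε hq0
    linarith
  have hncard : ({A : Finset ℕ | A ⊆ S ∧ A.card = k ∧
      ∃ β : ℕ → ZMod p, (∃ i ∈ A, β i ≠ 0) ∧ ε * q < nr p q A β}.ncard : ℝ) ≤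
      ({A : Finset ℕ | A ⊆ S ∧ A.card = k ∧ ∃ B, B ⊆ A ∧ B.Nonempty ∧
        (Bad p q ε B ∧ q ≤ 4 ^ B.card)}.ncard : ℝ) := by
    exact_mod_cast Set.ncard_le_ncard hsub (hfin _)
  refine hncard.trans (hmain.trans ?_)
  refine mul_le_mul_of_nonneg_right ?_ (Nat.cast_nonneg _)
  -- the sum
  have hk0 : (0 : ℝ) < k := by exact_mod_cast hk
  have hqτ : (0 : ℝ) < (q : ℝ) ^ τ := by positivity
  have hS0 : (0 : ℝ) < S.card := lt_of_lt_of_le (by positivity) hkS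
  have hu : (k : ℝ) / S.card ≤ (q : ℝ) ^ (-τ) := by
    rw [div_le_iff₀ hS0, Real.rpow_neg hq0.le, inv_mul_eq_div, le_div_iff₀ hqτ]
    exact hkS
  calc ∑ m ∈ Icc 1 k, w m * ((k : ℝ) / S.card) ^ m
      ≤ ∑ m ∈ Icc 1 k, Real.exp (-(κ / 2 * (Real.log q) ^ 2)) * (1 / 2) ^ m := by
        apply sum_le_sum
        intro m _
        by_cases h4 : q ≤ 4 ^ m
        · have hwm : w m = (30 * (q : ℝ) ^ (2 * (1 - ε))) ^ m := by
            rw [hw]; simp only [h4, if_true]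
          rw [hwm]
          exact term_bound hκ (by rw [hκdef]; ring) hq.two_le h60 h4 (by positivity) hu
        · have hwm : w m = 0 := by rw [hw]; simp only [h4, if_false]
          rw [hwm, zero_mul]
          positivity
    _ = Real.exp (-(κ / 2 * (Real.log q) ^ 2)) * ∑ m ∈ Icc 1 k, (1 / 2 : ℝ) ^ m := by
        rw [mul_sum]
    _ ≤ Real.exp (-(κ / 2 * (Real.log q) ^ 2)) * 1 :=
        mul_le_mul_of_nonneg_left (sum_half k) (Real.exp_pos _).le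
    _ = Real.exp (-(κ / 2 * (Real.log q) ^ 2)) := mul_one _

end Pool.Agent.SPV.H88
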